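import Pool.Agent.helper121_TH.Final

/-!
# The order of the top Hodge class in the integral cohomology of the moduli stack of
principally polarized abelian varieties
-/

namespace Pool.Agent.Results.MP_e08b43_ag.TopHodgeOrder

open Pool.Agent.H121

/-- For every `g ≥ 1` there is exactly one class in `H^{2g}(Sp_{2g}(ℤ);ℤ)` which is the Euler class
of the flat oriented bundle `ℝ^{2g}` (the top Hodge class up to sign), and its additive order is
`12` for `g = 1` and twice the product of `p ^ (1 + v_p(2 g))` over the primes `p` with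
`p - 1 ∣ 2 g` for `g ≥ 2`. -/
theorem result (g : ℕ) (hg : 1 ≤ g) :
    (∃! x : groupCohomology (Rep.trivial ℤ (Matrix.symplecticGroup (Fin g) ℤ) ℤ) (2 * g),
      IsTopHodge g x) ∧
    ∀ x : groupCohomology (Rep.trivial ℤ (Matrix.symplecticGroup (Fin g) ℤ) ℤ) (2 * g),
      IsTopHodge g x → addOrderOf x =
        (if g = 1 then 1 else 2) *
          ∏ p ∈ (Finset.range (2 * g + 2)).filter (fun p => p.Prime ∧ (p - 1) ∣ 2 * g),
            p ^ (1 + padicValNat p (2 * g)) :=
  main g hg

end Pool.Agent.Results.MP_e08b43_ag.TopHodgeOrder
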